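import Pool.Agent.Helper63.XR.StC

set_option autoImplicit false

/-! Project XR (MP_c973ff_an): the module EX2 (existence of the algebra). -/

namespace Pool.Agent.Helper61.XR

open Pool.Agent.Helper63.XR

theorem cmp_cmp {X : Type} [TopologicalSpace X] (h : X ≃ₜ X) (m n : ℤ) (f : C(X, ℂ)) :
    cmp h m (cmp h n f) = cmp h (n + m) f := by
  ext x
  simp only [Helper63.XR.cmp, ContinuousMap.comp_apply, ContinuousMap.coe_mk]
  rw [zpow_add]
  rfl

theorem cmp_zero {X : Type} [TopologicalSpace X] (h : X ≃ₜ X) (f : C(X, ℂ)) :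
    cmp h 0 f = f := by
  ext x
  simp only [Helper63.XR.cmp, ContinuousMap.comp_apply, ContinuousMap.coe_mk, zpow_zero]
  rfl

section ev
variable {X : Type} [TopologicalSpace X] [CompactSpace X] (h : X ≃ₜ X) {A : Type} [NormedRing A]
  [NormedAlgebra ℂ A] (j : C(X, ℂ) →ₐ[ℂ] A) (U : Aˣ)

theorem ev_zero : ev j U (0 : FS X) = 0 := by
  unfold ev; simp

theorem ev_add (g g' : FS X) : ev j U (g + g') = ev j U g + ev j U g' := by
  unfold ev
  exact Finsupp.sum_add_index' (fun n => by simp) (fun n a b => by rw [map_add, add_mul])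

theorem ev_single (n : ℤ) (f : C(X, ℂ)) :
    ev j U (Finsupp.single n f) = j f * ((U ^ n : Aˣ) : A) := by
  unfold ev
  rw [Finsupp.sum_single_index]
  simp

theorem ev_mul (hcov : ∀ f, (U : A) * j f = j (cmp h (-1) f) * U) (g g' : FS X) :
    ev j U (tw h g g') = ev j U g * ev j U g' := by
  have hcov' : ∀ f, ((U⁻¹ : Aˣ) : A) * j f = j (cmp h 1 f) * ((U⁻¹ : Aˣ) : A) := by
    intro f
    have h1 := hcov (cmp h 1 f)
    rw [cmp_cmp] at h1
    norm_num at h1
    rw [cmp_zero] at h1
    calc ((U⁻¹ : Aˣ) : A) * j f = ((U⁻¹ : Aˣ) : A) * (j f * U) * ((U⁻¹ : Aˣ) : A) := by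
          rw [mul_assoc, mul_assoc, Units.mul_inv, mul_one]
      _ = ((U⁻¹ : Aˣ) : A) * (U * j (cmp h 1 f)) * ((U⁻¹ : Aˣ) : A) := by rw [h1]
      _ = _ := by rw [← mul_assoc, Units.inv_mul, one_mul]
  have hz : ∀ (m : ℤ) (f : C(X, ℂ)),
      ((U ^ m : Aˣ) : A) * j f = j (cmp h (-m) f) * ((U ^ m : Aˣ) : A) := by
    intro m
    induction m using Int.induction_on with
    | zero => intro f; simp [cmp_zero]
    | succ n ih =>
      intro f
      rw [zpow_add_one, Units.val_mul, mul_assoc, hcov, ← mul_assoc, ih, cmp_cmp, mul_assoc]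
      congr 3
      ring
    | pred n ih =>
      intro f
      rw [zpow_sub_one, Units.val_mul, mul_assoc, hcov', ← mul_assoc, ih, cmp_cmp, mul_assoc]
      congr 3
      ring
  let evH : FS X →+ A := ⟨⟨ev j U, ev_zero j U⟩, ev_add j U⟩
  have h1 : ev j U (tw h g g') = g.sum fun m f => g'.sum fun n f' =>
      ev j U (Finsupp.single (m + n) (f * cmp h (-m) f')) := by
    change evH (tw h g g') = _
    unfold tw
    rw [map_finsuppSum]
    refine Finsupp.sum_congr fun m _ => ?_
    rw [map_finsuppSum]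
    rfl
  rw [h1]
  conv_rhs => unfold ev
  rw [Finsupp.sum_mul]
  refine Finsupp.sum_congr fun m _ => ?_
  rw [Finsupp.mul_sum]
  refine Finsupp.sum_congr fun n _ => ?_
  rw [ev_single, map_mul, zpow_add, Units.val_mul]
  have h2 := hz m (g' n)
  calc j (g m) * j (cmp h (-m) (g' n)) * (((U ^ m : Aˣ) : A) * ((U ^ n : Aˣ) : A))
      = j (g m) * (j (cmp h (-m) (g' n)) * ((U ^ m : Aˣ) : A)) * ((U ^ n : Aˣ) : A) := by
        simp only [mul_assoc]
    _ = j (g m) * (((U ^ m : Aˣ) : A) * j (g' n)) * ((U ^ n : Aˣ) : A) := by rw [h2]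
    _ = _ := by simp only [mul_assoc]

end ev

theorem hEX2 : StEx2 := by
  intro hEx1 hNub hRc hRb hRa hNlb X _ _ h
  obtain ⟨B, _, _, hcomp, j, U, hcov, hnorm⟩ := hEx1 hNub hRc hRb hRa hNlb X h
  let S : Subalgebra ℂ B :=
    { carrier := Set.range (ev j U)
      mul_mem' := by
        rintro _ _ ⟨g, rfl⟩ ⟨g', rfl⟩
        exact ⟨tw h g g', ev_mul h j U hcov g g'⟩
      add_mem' := by
        rintro _ _ ⟨g, rfl⟩ ⟨g', rfl⟩
        exact ⟨g + g', ev_add j U g g'⟩
      algebraMap_mem' := by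
        intro c
        refine ⟨Finsupp.single 0 (algebraMap ℂ C(X, ℂ) c), ?_⟩
        rw [ev_single, zpow_zero, Units.val_one, mul_one]
        exact j.commutes c }
  have hS : ∀ b : B, b ∈ S ↔ b ∈ Set.range (ev j U) := fun b => Iff.rfl
  have hle : ∀ b : B, b ∈ S → b ∈ S.topologicalClosure := fun b hb =>
    S.le_topologicalClosure hb
  have hj : ∀ f, j f ∈ S.topologicalClosure := fun f => hle _ ((hS _).2
    ⟨Finsupp.single 0 f, by rw [ev_single, zpow_zero, Units.val_one, mul_one]⟩)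
  have hU : (U : B) ∈ S.topologicalClosure := hle _ ((hS _).2
    ⟨Finsupp.single 1 1, by rw [ev_single, zpow_one, map_one, one_mul]⟩)
  have hU' : ((U⁻¹ : Bˣ) : B) ∈ S.topologicalClosure := hle _ ((hS _).2
    ⟨Finsupp.single (-1) 1, by rw [ev_single, zpow_neg_one, map_one, one_mul]⟩)
  let V : (↥S.topologicalClosure)ˣ :=
    { val := ⟨U, hU⟩
      inv := ⟨((U⁻¹ : Bˣ) : B), hU'⟩
      val_inv := Subtype.ext (by simp)
      inv_val := Subtype.ext (by simp) }
  have hV : ∀ n : ℤ, (((V ^ n : (↥S.topologicalClosure)ˣ) : ↥S.topologicalClosure) : B) =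
      ((U ^ n : Bˣ) : B) := by
    intro n
    have h1 : Units.map (S.topologicalClosure.val : ↥S.topologicalClosure →* B) V = U :=
      Units.ext rfl
    have h2 : Units.map (S.topologicalClosure.val : ↥S.topologicalClosure →* B) (V ^ n) = U ^ n := by
      rw [map_zpow, h1]
    rw [← h2]
    rfl
  let i : C(X, ℂ) →ₐ[ℂ] ↥S.topologicalClosure := j.codRestrict _ hj
  have hev : ∀ g : FS X, ((ev i V g : ↥S.topologicalClosure) : B) = ev j U g := by
    intro g
    unfold ev
    change S.topologicalClosure.val _ = _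
    rw [map_finsuppSum]
    refine Finsupp.sum_congr fun n _ => ?_
    rw [map_mul]
    change j (g n) * _ = _
    congr 1
    exact hV n
  have hclosed : IsClosed (S.topologicalClosure : Set B) := S.isClosed_topologicalClosure
  refine ⟨↥S.topologicalClosure, inferInstance, inferInstance, i, V, ?_, ?_, ?_, ?_⟩
  · exact hclosed.completeSpace_coe
  · intro f
    exact Subtype.ext (hcov f)
  · intro g
    rw [← hnorm g, ← hev g]
    rfl
  · intro a
    rw [closure_subtype]
    have h1 : (a : B) ∈ closure (S : Set B) := by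
      have := a.2
      rwa [← SetLike.mem_coe, Subalgebra.topologicalClosure_coe] at this
    refine closure_mono ?_ h1
    rintro b ⟨g, rfl⟩
    exact ⟨ev i V g, ⟨g, rfl⟩, hev g⟩

end Pool.Agent.Helper61.XR
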